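import Mathlib

namespace Pool.Agent.Results.MP_a656b1_co.EvenChains

open Finset

/-- `M(e)`: integer vectors `a` with `0 ≤ a i ≤ e i`. -/
def M {n : ℕ} (e : Fin n → ℕ) : Set (Fin n → ℤ) := {a | ∀ i, 0 ≤ a i ∧ a i ≤ e i}

/-- `I,U`-families in `M(e)`. -/
def IU {n : ℕ} (e : Fin n → ℕ) (F : Finset (Fin n → ℤ)) : Prop :=
  (∀ a ∈ F, a ∈ M e) ∧
    ∀ a ∈ F, ∀ b ∈ F, a + b ∉ M e ∧ a + b - (fun i => (e i : ℤ)) ∉ M e

/-- Boolean case. -/
theorem boolean {α : Type*} [Fintype α] [DecidableEq α] (F : Finset (Finset α))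
    (h : ∀ A ∈ F, ∀ B ∈ F, (A ∩ B).Nonempty ∧ A ∪ B ≠ univ) :
    4 * F.card ≤ 2 ^ Fintype.card α := by
  classical
  set U : Finset (Finset α) := univ.filter (fun X => ∃ A ∈ F, A ⊆ X) with hU
  set L : Finset (Finset α) := univ.filter (fun X => ∃ A ∈ F, X ⊆ A) with hL
  have hUup : IsUpperSet (U : Set (Finset α)) := by
    intro X Y hXY hX
    simp only [hU, coe_filter, mem_univ, true_and, Set.mem_ofPred_eq] at hX ⊢
    obtain ⟨A, hA, hAX⟩ := hX
    exact ⟨A, hA, hAX.trans hXY⟩
  have hLlow : IsLowerSet (L : Set (Finset α)) := by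
    intro X Y hXY hX
    simp only [hL, coe_filter, mem_univ, true_and, Set.mem_ofPred_eq] at hX ⊢
    obtain ⟨A, hA, hAX⟩ := hX
    exact ⟨A, hA, le_trans hXY hAX⟩
  have hUi : (U : Set (Finset α)).Intersecting := by
    intro X hX Y hY hd
    simp only [hU, coe_filter, mem_univ, true_and, Set.mem_ofPred_eq] at hX hY
    obtain ⟨A, hA, hAX⟩ := hX
    obtain ⟨B, hB, hBY⟩ := hY
    obtain ⟨x, hx⟩ := (h A hA B hB).1
    rw [mem_inter] at hx
    exact (Finset.disjoint_left.1 hd) (hAX hx.1) (hBY hx.2)
  have hLi : ((L.image compl : Finset (Finset α)) : Set (Finset α)).Intersecting := by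
    intro X hX Y hY hd
    simp only [coe_image, Set.mem_image, mem_coe] at hX hY
    obtain ⟨X', hX', rfl⟩ := hX
    obtain ⟨Y', hY', rfl⟩ := hY
    simp only [hL, mem_filter, mem_univ, true_and] at hX' hY'
    obtain ⟨A, hA, hAX⟩ := hX'
    obtain ⟨B, hB, hBY⟩ := hY'
    apply (h A hA B hB).2
    ext x
    simp only [mem_union, mem_univ, iff_true]
    by_contra hx
    push Not at hx
    have h1 : x ∈ X'ᶜ := by rw [mem_compl]; exact fun hh => hx.1 (hAX hh)
    have h2 : x ∈ Y'ᶜ := by rw [mem_compl]; exact fun hh => hx.2 (hBY hh)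
    exact (Finset.disjoint_left.1 hd) h1 h2
  have c1 := hUi.card_le
  have c2 := hLi.card_le
  rw [card_image_of_injective _ compl_injective] at c2
  rw [Fintype.card_finset] at c1 c2
  have c3 := hUup.card_inter_le_finset hLlow
  have c4 : F.card ≤ (U ∩ L).card := by
    apply card_le_card
    intro A hA
    rw [mem_inter]
    constructor
    · simp only [hU, mem_filter, mem_univ, true_and]; exact ⟨A, hA, Subset.refl _⟩
    · simp only [hL, mem_filter, mem_univ, true_and]; exact ⟨A, hA, Subset.refl _⟩
  have hpos : 0 < 2 ^ Fintype.card α := by positivity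
  have c5 : 2 ^ Fintype.card α * (4 * F.card) ≤ 2 ^ Fintype.card α * 2 ^ Fintype.card α := by
    calc 2 ^ Fintype.card α * (4 * F.card) ≤ 4 * (2 ^ Fintype.card α * (U ∩ L).card) := by
          nlinarith
      _ ≤ 4 * (U.card * L.card) := by omega
      _ = (2 * U.card) * (2 * L.card) := by ring
      _ ≤ _ := Nat.mul_le_mul c1 c2
  exact Nat.le_of_mul_le_mul_left c5 hpos

/-! ### Centred version -/

/-- the box -/
noncomputable def box {n : ℕ} (h : Fin n → ℕ) : Finset (Fin n → ℤ) :=
  Fintype.piFinset (fun i => Finset.Icc (-(h i : ℤ)) (h i))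

theorem mem_box {n : ℕ} {h : Fin n → ℕ} {x : Fin n → ℤ} :
    x ∈ box h ↔ ∀ i, |x i| ≤ h i := by
  unfold box
  simp only [Fintype.mem_piFinset, mem_Icc, abs_le]

/-- at least two nonzero coordinates -/
def T {n : ℕ} (x : Fin n → ℤ) : Prop := ∃ i j, i < j ∧ x i ≠ 0 ∧ x j ≠ 0

open Classical in
theorem fiber {n : ℕ} (h t : Fin n → ℕ) (C : Finset (Fin n → ℤ)) (hC : ∀ c ∈ C, c ∈ box h)
    (hh : ∀ c ∈ C, ∀ d ∈ C, (∃ i, 0 < c i + d i) ∧ ∃ j, c j + d j < 0) :
    4 * (C.filter (fun c => (fun i => (c i).natAbs) = t)).card ≤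
      (((box h).filter T).filter (fun c => (fun i => (c i).natAbs) = t)).card := by
  by_cases hne : (C.filter (fun c => (fun i => (c i).natAbs) = t)).Nonempty
  swap
  · rw [Finset.not_nonempty_iff_eq_empty] at hne
    rw [hne]; simp
  obtain ⟨c0, hc0⟩ := hne
  rw [mem_filter] at hc0
  have habs0 : ∀ i, (c0 i).natAbs = t i := fun i => congrFun hc0.2 i
  obtain ⟨⟨i1, hi1⟩, ⟨j1, hj1⟩⟩ := hh c0 hc0.1 c0 hc0.1
  have hTt : ∃ i j, i < j ∧ t i ≠ 0 ∧ t j ≠ 0 := by
    have e1 : t i1 ≠ 0 := by rw [← habs0 i1]; intro hz; rw [Int.natAbs_eq_zero] at hz; omega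
    have e2 : t j1 ≠ 0 := by rw [← habs0 j1]; intro hz; rw [Int.natAbs_eq_zero] at hz; omega
    rcases lt_trichotomy i1 j1 with hlt | heq | hgt
    · exact ⟨i1, j1, hlt, e1, e2⟩
    · subst heq; omega
    · exact ⟨j1, i1, hgt, e2, e1⟩
  let ψ : (Fin n → ℤ) → Finset {i : Fin n // t i ≠ 0} :=
    fun c => univ.filter (fun i => 0 < c i.1)
  set Ct := C.filter (fun c => (fun i => (c i).natAbs) = t) with hCt
  have habs : ∀ c ∈ Ct, ∀ i, (c i).natAbs = t i := by
    intro c hc i
    rw [hCt, mem_filter] at hc
    exact congrFun hc.2 i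
  have hinj : Set.InjOn ψ (Ct : Set (Fin n → ℤ)) := by
    intro c hc d hd hcd
    funext i
    have h1 := habs c hc i
    have h2 := habs d hd i
    by_cases hi : t i = 0
    · rw [hi, Int.natAbs_eq_zero] at h1 h2
      rw [h1, h2]
    · have := congrArg (fun s => (⟨i, hi⟩ : {i : Fin n // t i ≠ 0}) ∈ s) hcd
      simp only [ψ, mem_filter, mem_univ, true_and, eq_iff_iff] at this
      omega
  have hb := boolean (Ct.image ψ) (by
    intro A hA B hB
    rw [mem_image] at hA hB
    obtain ⟨c, hc, rfl⟩ := hA
    obtain ⟨d, hd, rfl⟩ := hB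
    have hc' := (mem_filter.1 hc).1
    have hd' := (mem_filter.1 hd).1
    obtain ⟨⟨i, hi⟩, ⟨j, hj⟩⟩ := hh c hc' d hd'
    have a1 := habs c hc i
    have a2 := habs d hd i
    have b1 := habs c hc j
    have b2 := habs d hd j
    constructor
    · have hti : t i ≠ 0 := by omega
      refine ⟨⟨i, hti⟩, ?_⟩
      simp only [ψ, mem_inter, mem_filter, mem_univ, true_and]
      omega
    · intro hun
      have htj : t j ≠ 0 := by omega
      have : (⟨j, htj⟩ : {i : Fin n // t i ≠ 0}) ∈ ψ c ∪ ψ d := by rw [hun]; exact mem_univ _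
      simp only [ψ, mem_union, mem_filter, mem_univ, true_and] at this
      omega)
  rw [card_image_of_injOn hinj] at hb
  refine hb.trans ?_
  rw [← Fintype.card_finset]
  -- surjection from the fiber of the box
  set D := ((box h).filter T).filter (fun c => (fun i => (c i).natAbs) = t) with hD
  have hsurj : (univ : Finset (Finset {i : Fin n // t i ≠ 0})) ⊆ D.image ψ := by
    intro S _
    rw [mem_image]
    refine ⟨fun i => if hi : t i ≠ 0 then (if (⟨i, hi⟩ : {i : Fin n // t i ≠ 0}) ∈ S then
      (t i : ℤ) else -(t i : ℤ)) else 0, ?_, ?_⟩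
    · have key : ∀ i, ((if hi : t i ≠ 0 then (if (⟨i, hi⟩ : {i : Fin n // t i ≠ 0}) ∈ S then
          (t i : ℤ) else -(t i : ℤ)) else 0 : ℤ)).natAbs = t i := by
        intro i
        split_ifs with h1 h2
        · simp
        · simp
        · push Not at h1; simp [h1]
      rw [hD, mem_filter, mem_filter, mem_box]
      refine ⟨⟨?_, ?_⟩, ?_⟩
      · intro i
        have hbx := (mem_box.1 (hC c0 hc0.1)) i
        have h1 := key i
        have h2 := habs0 i
        rw [Int.abs_eq_natAbs] at hbx ⊢
        rw [h1, ← h2]; exact hbx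
      · obtain ⟨i, j, hij, hi, hj⟩ := hTt
        refine ⟨i, j, hij, ?_, ?_⟩
        · intro hz
          have h1 := key i
          simp only [] at hz
          rw [hz] at h1
          simp at h1
          exact hi h1.symm
        · intro hz
          have h1 := key j
          simp only [] at hz
          rw [hz] at h1
          simp at h1
          exact hj h1.symm
      · funext i; exact key i
    · ext ⟨i, hi⟩
      simp only [ψ, mem_filter, mem_univ, true_and]
      rw [dif_pos hi]
      split_ifs with h2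
      · simp only [h2, iff_true]
        omega
      · simp only [h2, iff_false]
        omega
  calc (Fintype.card (Finset {i : Fin n // t i ≠ 0})) = (univ : Finset (Finset
        {i : Fin n // t i ≠ 0})).card := (card_univ).symm
    _ ≤ (D.image ψ).card := card_le_card hsurj
    _ ≤ D.card := card_image_le

open Classical in
theorem upper {n : ℕ} (h : Fin n → ℕ) (C : Finset (Fin n → ℤ)) (hC : ∀ c ∈ C, c ∈ box h)
    (hh : ∀ c ∈ C, ∀ d ∈ C, (∃ i, 0 < c i + d i) ∧ ∃ j, c j + d j < 0) :
    4 * C.card ≤ ((box h).filter T).card := by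
  set D := (box h).filter T with hD
  set I := C.image (fun c => (fun i => (c i).natAbs)) ∪ D.image (fun c => (fun i => (c i).natAbs))
  have h1 : C.card = ∑ t ∈ I, (C.filter (fun c => (fun i => (c i).natAbs) = t)).card :=
    card_eq_sum_card_fiberwise (fun c hc => mem_union_left _ (mem_image_of_mem _ hc))
  have h2 : D.card = ∑ t ∈ I, (D.filter (fun c => (fun i => (c i).natAbs) = t)).card :=
    card_eq_sum_card_fiberwise (fun c hc => mem_union_right _ (mem_image_of_mem _ hc))
  rw [h1, h2, mul_sum]
  exact sum_le_sum fun t _ => fiber h t C hC hh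

open Classical in
/-- counting the vectors with at most one nonzero coordinate -/
theorem card_le_one {n : ℕ} (h : Fin n → ℕ) :
    ((box h).filter (fun x => ¬ T x)).card = 2 * ∑ i, h i + 1 := by
  have key : (box h).filter (fun x => ¬ T x) = insert (0 : Fin n → ℤ)
      ((univ.sigma (fun i : Fin n => (Finset.Icc (-(h i : ℤ)) (h i)).erase 0)).image
        (fun p : (Σ _ : Fin n, ℤ) => Pi.single p.1 p.2)) := by
    ext x
    simp only [mem_filter, mem_insert, mem_image, mem_sigma, mem_univ, true_and, mem_erase,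
      Sigma.exists, mem_Icc]
    constructor
    · rintro ⟨hx, hT⟩
      by_cases h0 : x = 0
      · exact Or.inl h0
      · right
        have : ∃ i, x i ≠ 0 := by
          by_contra hcon
          push Not at hcon
          exact h0 (funext hcon)
        obtain ⟨i, hi⟩ := this
        refine ⟨i, x i, ⟨hi, ?_⟩, ?_⟩
        · have := (mem_box.1 hx) i
          rw [abs_le] at this
          exact this
        · funext j
          by_cases hj : j = i
          · subst hj; simp
          · rw [Pi.single_eq_of_ne hj]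
            by_contra hne
            apply hT
            rcases lt_or_gt_of_ne hj with hlt | hgt
            · exact ⟨j, i, hlt, fun e => hne e.symm, hi⟩
            · exact ⟨i, j, hgt, hi, fun e => hne e.symm⟩
    · rintro (rfl | ⟨i, v, ⟨hv, hvb⟩, rfl⟩)
      · refine ⟨?_, ?_⟩
        · rw [mem_box]; intro i; simp
        · rintro ⟨i, j, _, hi, _⟩; exact hi rfl
      · refine ⟨?_, ?_⟩
        · rw [mem_box]
          intro j
          by_cases hj : j = i
          · subst hj; simp [abs_le]; exact hvb
          · rw [Pi.single_eq_of_ne hj]; simp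
        · rintro ⟨a, b, hab, ha, hb⟩
          have e1 : a = i := by
            by_contra hne; exact ha (Pi.single_eq_of_ne hne _)
          have e2 : b = i := by
            by_contra hne; exact hb (Pi.single_eq_of_ne hne _)
          subst e1; subst e2
          exact absurd hab (lt_irrefl _)
  rw [key, card_insert_of_notMem]
  · rw [card_image_of_injOn, card_sigma]
    · rw [mul_sum]
      congr 1
      apply sum_congr rfl
      intro i _
      rw [card_erase_of_mem (by simp), Int.card_Icc]
      omega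
    · rintro ⟨i, v⟩ hp ⟨j, w⟩ hq hpq
      simp only [coe_sigma, Set.mem_sigma_iff, mem_coe, mem_erase, coe_univ, Set.mem_univ,
        true_and] at hp hq
      simp only at hpq
      have hij : i = j := by
        by_contra hne
        have := congrFun hpq i
        rw [Pi.single_eq_same, Pi.single_eq_of_ne hne] at this
        exact hp.1 this
      subst hij
      have := congrFun hpq i
      rw [Pi.single_eq_same, Pi.single_eq_same] at this
      subst this
      rfl
  · simp only [mem_image, mem_sigma, mem_univ, true_and, mem_erase, Sigma.exists, not_exists,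
      not_and]
    rintro i v ⟨hv, _⟩ hz
    have := congrFun hz i
    rw [Pi.single_eq_same] at this
    exact hv this

theorem card_box {n : ℕ} (h : Fin n → ℕ) : (box h).card = ∏ i, (2 * h i + 1) := by
  unfold box
  rw [Fintype.card_piFinset]
  apply prod_congr rfl
  intro i _
  rw [Int.card_Icc]
  omega

open Classical in
theorem card_T {n : ℕ} (h : Fin n → ℕ) :
    ((box h).filter T).card + 2 * ∑ i, h i + 1 = ∏ i, (2 * h i + 1) := by
  have h1 := card_filter_add_card_filter_not (s := box h) T
  rw [card_le_one, card_box] at h1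
  omega

/-! ### the construction -/

open Classical in
/-- negate the first nonzero coordinate -/
noncomputable def flip {n : ℕ} (x : Fin n → ℤ) : Fin n → ℤ := fun i =>
  if (∀ j, j < i → x j = 0) then - x i else x i

theorem flip_eq_zero {n : ℕ} (x : Fin n → ℤ) (i : Fin n) : flip x i = 0 ↔ x i = 0 := by
  unfold flip
  split_ifs <;> simp

theorem flip_flip {n : ℕ} (x : Fin n → ℤ) : flip (flip x) = x := by
  funext i
  have h : (∀ j, j < i → flip x j = 0) ↔ (∀ j, j < i → x j = 0) := by
    simp only [flip_eq_zero]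
  by_cases hc : ∀ j, j < i → x j = 0
  · have h1 : flip (flip x) i = - flip x i := by
      change (if (∀ j, j < i → flip x j = 0) then - flip x i else flip x i) = _
      rw [if_pos (h.2 hc)]
    have h2 : flip x i = - x i := by
      change (if (∀ j, j < i → x j = 0) then - x i else x i) = _
      rw [if_pos hc]
    rw [h1, h2, neg_neg]
  · have h1 : flip (flip x) i = flip x i := by
      change (if (∀ j, j < i → flip x j = 0) then - flip x i else flip x i) = _
      rw [if_neg (fun hh => hc (h.1 hh))]
    have h2 : flip x i = x i := by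
      change (if (∀ j, j < i → x j = 0) then - x i else x i) = _
      rw [if_neg hc]
    rw [h1, h2]

theorem flip_T {n : ℕ} (x : Fin n → ℤ) : T (flip x) ↔ T x := by
  unfold T
  simp only [ne_eq, flip_eq_zero]

theorem flip_box {n : ℕ} (h : Fin n → ℕ) (x : Fin n → ℤ) (hx : x ∈ box h) : flip x ∈ box h := by
  rw [mem_box] at hx ⊢
  intro i
  unfold flip
  split_ifs
  · rw [abs_neg]; exact hx i
  · exact hx i

/-- the first nonzero coordinate is negative -/
def FN {n : ℕ} (x : Fin n → ℤ) : Prop := ∃ i, x i < 0 ∧ ∀ j, j < i → x j = 0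

/-- the last nonzero coordinate is positive -/
def LP {n : ℕ} (x : Fin n → ℤ) : Prop := ∃ i, 0 < x i ∧ ∀ j, i < j → x j = 0

theorem exists_first {n : ℕ} (x : Fin n → ℤ) (hx : T x) :
    ∃ i, x i ≠ 0 ∧ ∀ j, j < i → x j = 0 := by
  obtain ⟨i, _, _, hi, _⟩ := hx
  obtain ⟨m, hm, hmin⟩ := (univ.filter (fun i => x i ≠ 0)).exists_min_image id
    ⟨i, by simp [hi]⟩
  refine ⟨m, by simpa using hm, fun j hj => ?_⟩
  by_contra hne
  have := hmin j (by simp [hne])
  exact absurd hj (not_lt.2 this)

theorem exists_last {n : ℕ} (x : Fin n → ℤ) (hx : T x) :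
    ∃ i, x i ≠ 0 ∧ ∀ j, i < j → x j = 0 := by
  obtain ⟨i, _, _, hi, _⟩ := hx
  obtain ⟨m, hm, hmax⟩ := (univ.filter (fun i => x i ≠ 0)).exists_max_image id
    ⟨i, by simp [hi]⟩
  refine ⟨m, by simpa using hm, fun j hj => ?_⟩
  by_contra hne
  have := hmax j (by simp [hne])
  exact absurd hj (not_lt.2 this)

theorem FN_iff {n : ℕ} (x : Fin n → ℤ) {i : Fin n} (hi : x i ≠ 0) (h : ∀ j, j < i → x j = 0) :
    FN x ↔ x i < 0 := by
  constructor
  · rintro ⟨k, hk, hk'⟩
    rcases lt_trichotomy i k with hlt | heq | hgt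
    · exact absurd (hk' i hlt) hi
    · rw [heq]; exact hk
    · have := h k hgt; omega
  · intro hneg; exact ⟨i, hneg, h⟩

theorem LP_iff {n : ℕ} (x : Fin n → ℤ) {i : Fin n} (hi : x i ≠ 0) (h : ∀ j, i < j → x j = 0) :
    LP x ↔ 0 < x i := by
  constructor
  · rintro ⟨k, hk, hk'⟩
    rcases lt_trichotomy i k with hlt | heq | hgt
    · have := h k hlt; omega
    · rw [heq]; exact hk
    · exact absurd (hk' i hgt) hi
  · intro hpos; exact ⟨i, hpos, h⟩

theorem neg_T {n : ℕ} (x : Fin n → ℤ) : T (-x) ↔ T x := by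
  unfold T
  simp only [Pi.neg_apply, ne_eq, neg_eq_zero]

theorem neg_FN {n : ℕ} (x : Fin n → ℤ) (hx : T x) : FN (-x) ↔ ¬ FN x := by
  obtain ⟨i, hi, h⟩ := exists_first x hx
  rw [FN_iff x hi h, FN_iff (-x) (i := i) (by simpa using hi)
    (fun j hj => by simpa using h j hj)]
  simp only [Pi.neg_apply]
  omega

theorem neg_LP {n : ℕ} (x : Fin n → ℤ) (hx : T x) : LP (-x) ↔ ¬ LP x := by
  obtain ⟨i, hi, h⟩ := exists_last x hx
  rw [LP_iff x hi h, LP_iff (-x) (i := i) (by simpa using hi)
    (fun j hj => by simpa using h j hj)]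
  simp only [Pi.neg_apply]
  omega

theorem flip_FN {n : ℕ} (x : Fin n → ℤ) (hx : T x) : FN (flip x) ↔ ¬ FN x := by
  obtain ⟨i, hi, h⟩ := exists_first x hx
  rw [FN_iff x hi h, FN_iff (flip x) (i := i) (by rw [ne_eq, flip_eq_zero]; exact hi)
    (fun j hj => by rw [flip_eq_zero]; exact h j hj)]
  have : flip x i = - x i := by
    change (if (∀ j, j < i → x j = 0) then - x i else x i) = _
    rw [if_pos h]
  rw [this]
  omega

theorem flip_LP {n : ℕ} (x : Fin n → ℤ) (hx : T x) : LP (flip x) ↔ LP x := by
  obtain ⟨i, hi, h⟩ := exists_last x hx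
  rw [LP_iff x hi h, LP_iff (flip x) (i := i) (by rw [ne_eq, flip_eq_zero]; exact hi)
    (fun j hj => by rw [flip_eq_zero]; exact h j hj)]
  have : flip x i = x i := by
    change (if (∀ j, j < i → x j = 0) then - x i else x i) = _
    rw [if_neg]
    intro hall
    obtain ⟨a, b, hab, ha, hb⟩ := hx
    have hbi : ¬ i < b := fun hlt => hb (h b hlt)
    exact ha (hall a (lt_of_lt_of_le hab (not_lt.1 hbi)))
  rw [this]

open Classical in
/-- the extremal family (centred) -/
noncomputable def A {n : ℕ} (h : Fin n → ℕ) : Finset (Fin n → ℤ) :=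
  (box h).filter (fun x => T x ∧ FN x ∧ LP x)

open Classical in
theorem card_A {n : ℕ} (h : Fin n → ℕ) : 4 * (A h).card = ((box h).filter T).card := by
  have nb : ∀ x ∈ box h, -x ∈ box h := by
    intro x hx
    rw [mem_box] at hx ⊢
    intro i
    rw [Pi.neg_apply, abs_neg]; exact hx i
  set B1 := (box h).filter (fun x => T x ∧ FN x ∧ LP x) with hB1
  set B2 := (box h).filter (fun x => T x ∧ ¬ FN x ∧ LP x) with hB2
  set B3 := (box h).filter (fun x => T x ∧ FN x ∧ ¬ LP x) with hB3
  set B4 := (box h).filter (fun x => T x ∧ ¬ FN x ∧ ¬ LP x) with hB4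
  have e12 : B1.card = B2.card := by
    refine card_nbij' flip flip ?_ ?_ (fun x _ => flip_flip x) (fun x _ => flip_flip x)
    · intro x hx
      simp only [hB1, hB2, coe_filter, Set.mem_ofPred_eq] at hx ⊢
      obtain ⟨hb, hT, h1, h2⟩ := hx
      refine ⟨flip_box h x hb, (flip_T x).2 hT, ?_, (flip_LP x hT).2 h2⟩
      rw [flip_FN x hT]; exact not_not.2 h1
    · intro x hx
      simp only [hB1, hB2, coe_filter, Set.mem_ofPred_eq] at hx ⊢
      obtain ⟨hb, hT, h1, h2⟩ := hx
      exact ⟨flip_box h x hb, (flip_T x).2 hT, (flip_FN x hT).2 h1, (flip_LP x hT).2 h2⟩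
  have e14 : B1.card = B4.card := by
    refine card_nbij' (fun x => -x) (fun x => -x) ?_ ?_ (fun x _ => neg_neg x)
      (fun x _ => neg_neg x)
    · intro x hx
      simp only [hB1, hB4, coe_filter, Set.mem_ofPred_eq] at hx ⊢
      obtain ⟨hb, hT, h1, h2⟩ := hx
      refine ⟨nb x hb, (neg_T x).2 hT, ?_, ?_⟩
      · rw [neg_FN x hT]; exact not_not.2 h1
      · rw [neg_LP x hT]; exact not_not.2 h2
    · intro x hx
      simp only [hB1, hB4, coe_filter, Set.mem_ofPred_eq] at hx ⊢
      obtain ⟨hb, hT, h1, h2⟩ := hx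
      exact ⟨nb x hb, (neg_T x).2 hT, (neg_FN x hT).2 h1, (neg_LP x hT).2 h2⟩
  have e23 : B2.card = B3.card := by
    refine card_nbij' (fun x => -x) (fun x => -x) ?_ ?_ (fun x _ => neg_neg x)
      (fun x _ => neg_neg x)
    · intro x hx
      simp only [hB2, hB3, coe_filter, Set.mem_ofPred_eq] at hx ⊢
      obtain ⟨hb, hT, h1, h2⟩ := hx
      refine ⟨nb x hb, (neg_T x).2 hT, (neg_FN x hT).2 h1, ?_⟩
      rw [neg_LP x hT]; exact not_not.2 h2
    · intro x hx
      simp only [hB2, hB3, coe_filter, Set.mem_ofPred_eq] at hx ⊢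
      obtain ⟨hb, hT, h1, h2⟩ := hx
      refine ⟨nb x hb, (neg_T x).2 hT, ?_, (neg_LP x hT).2 h2⟩
      rw [neg_FN x hT]; exact not_not.2 h1
  have tot : ((box h).filter T).card = B1.card + B2.card + B3.card + B4.card := by
    have s1 := card_filter_add_card_filter_not (s := (box h).filter T) LP
    have s2 := card_filter_add_card_filter_not (s := ((box h).filter T).filter LP) FN
    have s3 := card_filter_add_card_filter_not
      (s := ((box h).filter T).filter (fun x => ¬ LP x)) FN
    have g1 : (((box h).filter T).filter LP).filter FN = B1 := by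
      ext x; simp only [hB1, mem_filter]; tauto
    have g2 : (((box h).filter T).filter LP).filter (fun x => ¬ FN x) = B2 := by
      ext x; simp only [hB2, mem_filter]; tauto
    have g3 : (((box h).filter T).filter (fun x => ¬ LP x)).filter FN = B3 := by
      ext x; simp only [hB3, mem_filter]; tauto
    have g4 : (((box h).filter T).filter (fun x => ¬ LP x)).filter (fun x => ¬ FN x) = B4 := by
      ext x; simp only [hB4, mem_filter]; tauto
    rw [g1, g2] at s2
    rw [g3, g4] at s3
    omega
  have : A h = B1 := rfl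
  rw [this]
  omega

theorem A_good {n : ℕ} (h : Fin n → ℕ) : ∀ c ∈ A h, ∀ d ∈ A h,
    (∃ i, 0 < c i + d i) ∧ ∃ j, c j + d j < 0 := by
  intro c hc d hd
  simp only [A, mem_filter] at hc hd
  obtain ⟨_, _, ⟨i, hi, hi'⟩, ⟨k, hk, hk'⟩⟩ := hc
  obtain ⟨_, _, ⟨i2, hi2, hi2'⟩, ⟨k2, hk2, hk2'⟩⟩ := hd
  constructor
  · rcases lt_trichotomy k k2 with hlt | heq | hgt
    · exact ⟨k2, by rw [hk' k2 hlt]; omega⟩
    · subst heq; exact ⟨k, by omega⟩
    · exact ⟨k, by rw [hk2' k hgt]; omega⟩
  · rcases lt_trichotomy i i2 with hlt | heq | hgt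
    · exact ⟨i, by rw [hi2' i hlt]; omega⟩
    · subst heq; exact ⟨i, by omega⟩
    · exact ⟨i2, by rw [hi' i2 hgt]; omega⟩

/-- **Maximum size of an `I,U`-family in a product of even chains.**  If every `e i` is even then
`g(e) = (∏ (e i + 1) - ∑ e i - 1) / 4` (and the numerator is divisible by `4`). -/
theorem result {n : ℕ} (e : Fin n → ℕ) (he : ∀ i, Even (e i)) :
    ∃ g : ℕ, 4 * g + ∑ i, e i + 1 = ∏ i, (e i + 1) ∧
      IsGreatest {k : ℕ | ∃ F : Finset (Fin n → ℤ), IU e F ∧ F.card = k} g := by
  classical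
  choose h hh using fun i => he i
  have he2 : ∀ i, e i = 2 * h i := fun i => by rw [hh i]; ring
  have hprod : ∏ i, (e i + 1) = ∏ i, (2 * h i + 1) := prod_congr rfl (fun i _ => by rw [he2 i])
  have hsum : ∑ i, e i = 2 * ∑ i, h i := by
    rw [mul_sum]; exact sum_congr rfl (fun i _ => he2 i)
  refine ⟨(A h).card, ?_, ?_, ?_⟩
  · rw [card_A, hprod, hsum, ← card_T h]
  · refine ⟨(A h).image (fun c i => c i + (h i : ℤ)), ⟨?_, ?_⟩, ?_⟩
    · intro a ha
      rw [mem_image] at ha
      obtain ⟨c, hc, rfl⟩ := ha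
      intro i
      have hb := (mem_box.1 (mem_filter.1 hc).1) i
      rw [abs_le] at hb
      have := he2 i
      simp only
      omega
    · intro a ha b hb
      rw [mem_image] at ha hb
      obtain ⟨c, hc, rfl⟩ := ha
      obtain ⟨d, hd, rfl⟩ := hb
      obtain ⟨⟨i, hi⟩, ⟨j, hj⟩⟩ := A_good h c hc d hd
      constructor
      · intro hm
        have h1 := (hm i).2
        have := he2 i
        simp only [Pi.add_apply] at h1
        omega
      · intro hm
        have h1 := (hm j).1
        have := he2 j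
        simp only [Pi.add_apply, Pi.sub_apply] at h1
        omega
    · apply card_image_of_injective
      intro c d hcd
      funext i
      have := congrFun hcd i
      simp only at this
      omega
  · rintro k ⟨F, ⟨hM, hIU⟩, rfl⟩
    have key := upper h (F.image (fun a i => a i - (h i : ℤ))) (by
      intro c hc
      rw [mem_image] at hc
      obtain ⟨a, ha, rfl⟩ := hc
      rw [mem_box]
      intro i
      have := hM a ha i
      have := he2 i
      rw [abs_le]
      constructor <;> omega) (by
      intro c hc d hd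
      rw [mem_image] at hc hd
      obtain ⟨a, ha, rfl⟩ := hc
      obtain ⟨b, hb, rfl⟩ := hd
      have := hIU a ha b hb
      constructor
      · by_contra hcon
        push Not at hcon
        apply this.1
        intro i
        have h1 := hM a ha i
        have h2 := hM b hb i
        have h3 := hcon i
        have h4 := he2 i
        simp only [Pi.add_apply]
        constructor <;> omega
      · by_contra hcon
        push Not at hcon
        apply this.2
        intro i
        have h1 := hM a ha i
        have h2 := hM b hb i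
        have h3 := hcon i
        have h4 := he2 i
        simp only [Pi.add_apply, Pi.sub_apply]
        constructor <;> omega)
    rw [card_image_of_injective] at key
    · rw [← card_A] at key
      omega
    · intro c d hcd
      funext i
      have := congrFun hcd i
      simp only at this
      omega

end Pool.Agent.Results.MP_a656b1_co.EvenChains
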